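import Pool.Agent.H73.HK.RK

/-!
# A non zero minor of a matrix of coefficients of power series (interface free part of MINJ)
-/

namespace Pool.Agent.H8.HN

open scoped BigOperators
open MvPowerSeries

/-- A set `T` of exponents closed under passing to smaller ones. If the coefficients of `v` in `T`
are zero, the ones of `u v` are zero. -/
theorem coeff_mul_low {κ : ℕ} {R : Type*} [CommSemiring R] (T : Set (Fin κ →₀ ℕ))
    (hT : ∀ a b, a + b ∈ T → b ∈ T) (u v : MvPowerSeries (Fin κ) R)
    (h : ∀ τ ∈ T, coeff τ v = 0) : ∀ τ ∈ T, coeff τ (u * v) = 0 := by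
  classical
  intro τ hτ
  rw [coeff_mul]
  refine Finset.sum_eq_zero fun p hp => ?_
  rw [Finset.HasAntidiagonal.mem_antidiagonal] at hp
  rw [h p.2 (hT p.1 p.2 (by rwa [hp])), mul_zero]

/-- **Rows and columns.** If every non zero combination of the sections `s j` has, at some point of
`S`, a non zero coefficient with exponent in `T`, and each `s j` is, up to a unit `u`, a combination
of the `m J`, then some minor of the matrix of the coefficients of the `m J` at points of `S`, with
exponents in `T`, is not zero. -/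
theorem minor_jet {P X : Type*} [Fintype X] {N κ : ℕ} (T : Set (Fin κ →₀ ℕ))
    (hT : ∀ a b, a + b ∈ T → b ∈ T) (S : Set P) (s : Fin N → P → MvPowerSeries (Fin κ) ℂ)
    (u : P → MvPowerSeries (Fin κ) ℂ) (m : X → P → MvPowerSeries (Fin κ) ℂ) (c : Fin N → X → ℂ)
    (hs : ∀ j, ∀ y ∈ S, s j y = u y * ∑ J, c j J • m J y)
    (h : ∀ d : Fin N → ℂ, d ≠ 0 → ∃ y ∈ S, ∃ τ ∈ T, coeff τ (∑ j, d j • s j y) ≠ 0) :
    ∃ (y : Fin N → P) (τ : Fin N → Fin κ →₀ ℕ) (J : Fin N → X), (∀ i, y i ∈ S) ∧
      (∀ i, τ i ∈ T) ∧ Matrix.det (Matrix.of fun i j => coeff (τ i) (m (J j) (y i))) ≠ 0 := by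
  classical
  -- rows
  obtain ⟨w, hw, hdet⟩ := Pool.Agent.H73.HK.exists_minor
    (fun (j : Fin N) (w : P × (Fin κ →₀ ℕ)) => coeff w.2 (∑ J, c j J • m J w.1))
    {w | w.1 ∈ S ∧ w.2 ∈ T} (by
      intro d hd
      obtain ⟨y, hy, τ, hτ, hne⟩ := h d hd
      by_contra hcon
      push Not at hcon
      apply hne
      have h1 : ∑ j, d j • s j y = u y * ∑ j, d j • ∑ J, c j J • m J y := by
        rw [Finset.mul_sum]
        refine Finset.sum_congr rfl fun j _ => ?_
        rw [hs j y hy, mul_smul_comm]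
      rw [h1]
      refine coeff_mul_low T hT _ _ (fun τ' hτ' => ?_) τ hτ
      have h2 := hcon (y, τ') ⟨hy, hτ'⟩
      rw [map_sum]
      simpa using h2)
  -- columns
  obtain ⟨J, -, hJ⟩ := Pool.Agent.H73.HK.exists_minor
    (fun (i : Fin N) (J : X) => coeff (w i).2 (m J (w i).1)) Set.univ (by
    intro d hd
    by_contra hcon
    push Not at hcon
    have h1 : Matrix.vecMul d (Matrix.of fun i j => coeff (w i).2 (∑ J, c j J • m J (w i).1)) =
        0 := by
      funext j
      simp only [Matrix.vecMul, dotProduct, Matrix.of_apply, Pi.zero_apply]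
      have h2 : ∀ i, d i * coeff (w i).2 (∑ J, c j J • m J (w i).1) =
          ∑ J, c j J * (d i * coeff (w i).2 (m J (w i).1)) := by
        intro i
        rw [map_sum, Finset.mul_sum]
        refine Finset.sum_congr rfl fun J _ => ?_
        rw [map_smul, smul_eq_mul]
        ring
      rw [Finset.sum_congr rfl fun i _ => h2 i, Finset.sum_comm]
      refine Finset.sum_eq_zero fun J _ => ?_
      rw [← Finset.mul_sum, hcon J (Set.mem_univ _), mul_zero]
    exact hd (Matrix.eq_zero_of_vecMul_eq_zero hdet h1))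
  refine ⟨fun i => (w i).1, fun i => (w i).2, J, fun i => (hw i).1, fun i => (hw i).2, ?_⟩
  rw [← Matrix.det_transpose] at hJ
  exact hJ

end Pool.Agent.H8.HN
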