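import Pool.Agent.H74.HN.GENJ
import Pool.Agent.H13.HN.Disc
import Pool.Agent.H8.HN.MinJ0

/-!
# Module MINJ: a non zero determinant of Taylor coefficients of products of translates

The rows are pairs (element of the group, exponent), the columns products of translates of
normalised coordinates.
-/

namespace Pool.Agent.H8.HN

open scoped BigOperators
open Submodule Pool.Agent.H83.HN Pool.Agent.H13.HN Pool.Agent.H74.HN

/-- Elements of a space of functions whose restrictions form a basis of the space of the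
restrictions. -/
theorem exists_lifts {P Q : Type*} (S : Submodule ℂ (P → ℂ)) [Module.Finite ℂ S] (f : Q → P)
    {N : ℕ} (hN : N = Module.finrank ℂ (S.map (LinearMap.funLeft ℂ ℂ f))) :
    ∃ b : Fin N → P → ℂ, (∀ j, b j ∈ S) ∧
      ∀ d : Fin N → ℂ, d ≠ 0 → ∃ y : Q, (∑ j, d j • b j) (f y) ≠ 0 := by
  subst hN
  have hfin : Module.Finite ℂ (S.map (LinearMap.funLeft ℂ ℂ f)) := inferInstance
  let B := Module.finBasis ℂ (S.map (LinearMap.funLeft ℂ ℂ f))
  have h1 : ∀ j, ∃ b ∈ S, LinearMap.funLeft ℂ ℂ f b = (B j : Q → ℂ) := fun j =>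
    Submodule.mem_map.1 (B j).2
  choose b hb hbB using h1
  refine ⟨b, hb, fun d hd => ?_⟩
  by_contra hcon
  push Not at hcon
  apply hd
  have h2 : ∑ j, d j • B j = 0 := by
    apply Subtype.ext
    funext y
    have h3 := hcon y
    rw [Submodule.coe_sum, Submodule.coe_zero, Finset.sum_apply, Pi.zero_apply, ← h3,
      Finset.sum_apply]
    refine Finset.sum_congr rfl fun j _ => ?_
    rw [Submodule.coe_smul, Pi.smul_apply, Pi.smul_apply, ← hbB j]
    rfl
  funext j
  exact Fintype.linearIndependent_iff.1 B.linearIndependent d h2 j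

variable {n : ℕ} {Lam : Type} [AddCommGroup Lam] {q : Lam → Lam → ℤ} {M : Manifold n Lam q}
  {L A : Lam} {r : ℕ}

/-- The points at which some translate of a non zero section vanishes: a countable family of proper
closed sets. -/
theorem translates_bad (π : Para M L A r) {s : M.P → ℂ} {G : Lam} (hs : s ∈ M.Sec G)
    (hne : s ≠ 0) (g : Fin r → ℤ) :
    IsClosed {y : M.P | s (π.rho g • y) = 0} ∧ {y : M.P | s (π.rho g • y) = 0} ≠ Set.univ := by
  refine ⟨(M.zero_closed G s hs).preimage (M.aut_cont (π.rho g)), fun h => hne ?_⟩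
  funext y
  have h1 : (π.rho g)⁻¹ • y ∈ {y : M.P | s (π.rho g • y) = 0} := by
    rw [h]
    exact Set.mem_univ _
  simpa using h1

/-- **MINJ.** -/
theorem minor_jets (hadd : ∀ x y z, q (x + y) z = q x z + q y z)
    (hsymm : ∀ x y, q x y = q y x) (I : Iitaka M L) (π : Para M L A r) (hA : A ∈ M.VeryAmple)
    (htriv : ∀ g, π.rho g ∈ I.triv) {k : ℕ}
    (a : Fin (k + 1) → M.P → ℂ) (hspan : span ℂ (Set.range a) = M.Sec A)
    (e : Fin r → ℤ) (C : ℕ) (hC : 2 * n + 1 ≤ C)
    (hC' : (C : ℤ) • A - ((2 * n + 1 : ℕ) : ℤ) • ((2 : ℤ) • A + (2 * c0 π e) • L) ∈ M.Nef)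
    (K m : ℕ) (x : M.P) (hx : I.s 0 x ≠ 0) (hx0 : ∀ g, a 0 (π.rho g • x) ≠ 0) (R : ℤ) (T : ℕ)
    (hnv : ∀ s ∈ M.Sec (xE (2 * n + 1) C K m • A + yE (2 * n + 1) (c0 π e) K m • L),
      (∃ y ∈ I.Fib x, s y ≠ 0) → ∃ g : Fin r → ℤ, (∀ i, |g i| ≤ R) ∧
        ∃ tau : Fin I.k →₀ ℕ, tau.degree ≤ T ∧ MvPowerSeries.coeff tau (I.J (π.rho g • x)
          (xE (2 * n + 1) C K m • A + yE (2 * n + 1) (c0 π e) K m • L) s) ≠ 0)
    (N : ℕ) (hN : N = Module.finrank ℂ
      ((M.Sec (xE (2 * n + 1) C K m • A + yE (2 * n + 1) (c0 π e) K m • L)).map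
        (LinearMap.funLeft ℂ ℂ (Subtype.val : I.Fib x → M.P)))) :
    ∃ (g : Fin N → (Fin r → ℤ)) (tau : Fin N → (Fin I.k →₀ ℕ))
      (J : Fin N → Fin (Jet.lstAll (2 * n + 1) e C K m).length → Fin (k + 1)),
      (∀ i j, |g i j| ≤ R) ∧ (∀ i, (tau i).degree ≤ T) ∧
      Matrix.det (Matrix.of fun i j => MvPowerSeries.coeff (tau i)
        (∏ s, nc (fun y u => I.J y A u) a
          (π.rho ((Jet.lstAll (2 * n + 1) e C K m).get s + g i) • x) (J j s))) ≠ 0 := by
  classical
  obtain ⟨E, hE⟩ : ∃ E, E = xE (2 * n + 1) C K m • A + yE (2 * n + 1) (c0 π e) K m • L :=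
    ⟨_, rfl⟩
  obtain ⟨l, hl⟩ : ∃ l, l = Jet.lstAll (2 * n + 1) e C K m := ⟨_, rfl⟩
  obtain ⟨U, -, hU⟩ := generation_jets hadd hsymm I π hA htriv a hspan e C hC hC' K m
  rw [← hE, ← hl] at hU
  rw [← hE] at hnv hN
  rw [← hl]
  have hfin : Module.Finite ℂ (M.Sec E) := M.sec_fin E
  obtain ⟨b, hb, hbne⟩ := exists_lifts (M.Sec E) (Subtype.val : I.Fib x → M.P) hN
  have hamem : ∀ j, a j ∈ M.Sec A := fun j => by
    rw [← hspan]
    exact subset_span (Set.mem_range_self j)
  choose c hc using fun j => hU (b j) (hb j)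
  have hgood : ∀ g, I.s 0 (π.rho g • x) ≠ 0 := fun g => I.triv_good _ (htriv g) x hx
  obtain ⟨y, tau, J, hy, htau, hdet⟩ := minor_jet (P := M.P)
    {τ : Fin I.k →₀ ℕ | τ.degree ≤ T}
    (fun u v huv => by
      have h1 : (u + v).degree = u.degree + v.degree := map_add _ u v
      have h2 : (u + v).degree ≤ T := huv
      change v.degree ≤ T
      omega)
    {y | ∃ g : Fin r → ℤ, (∀ i, |g i| ≤ R) ∧ y = π.rho g • x}
    (fun j y => I.J y E (b j))
    (fun y => U y * ∏ i, I.J (π.rho (l.get i) • y) A (a 0))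
    (fun (J : Fin l.length → Fin (k + 1)) y =>
      ∏ i, nc (fun y u => I.J y A u) a (π.rho (l.get i) • y) (J i)) c
    (by
      rintro j _ ⟨g, -, rfl⟩
      rw [hc j _ (hgood g), mul_assoc]
      congr 1
      rw [Finset.mul_sum]
      refine Finset.sum_congr rfl fun J _ => ?_
      rw [mul_smul_comm, ← Finset.prod_mul_distrib]
      congr 1
      refine Finset.prod_congr rfl fun i _ => ?_
      have h1 : π.rho (l.get i) • π.rho g • x = π.rho (l.get i + g) • x := by
        rw [π.rho_add, mul_smul]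
      have h2 : MvPowerSeries.constantCoeff (I.J (π.rho (l.get i) • π.rho g • x) A (a 0)) ≠ 0 := by
        rw [h1, I.J_val _ (hgood _) A _ (hamem 0)]
        exact hx0 _
      rw [nc, mul_left_comm, MvPowerSeries.mul_inv_cancel _ h2, mul_one])
    (by
      intro d hd
      obtain ⟨y, hy⟩ := hbne d hd
      have hmem : ∑ j, d j • b j ∈ M.Sec E :=
        sum_mem fun j _ => (M.Sec E).smul_mem _ (hb j)
      obtain ⟨g, hg, tau, htau, hne⟩ := hnv _ hmem ⟨y.1, y.2, hy⟩
      refine ⟨_, ⟨g, hg, rfl⟩, tau, htau, ?_⟩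
      rw [J_sum I _ (hgood g) E _ _ fun j _ => (M.Sec E).smul_mem _ (hb j)] at hne
      intro h0
      apply hne
      rw [← h0]
      congr 1
      refine Finset.sum_congr rfl fun j _ => ?_
      rw [I.J_smul _ (hgood g) E _ _ (hb j), MvPowerSeries.smul_eq_C_mul])
  choose g hg hgy using hy
  refine ⟨g, tau, J, hg, htau, ?_⟩
  have h1 : (Matrix.of fun i j => MvPowerSeries.coeff (tau i)
      (∏ s, nc (fun y u => I.J y A u) a (π.rho (l.get s + g i) • x) (J j s))) =
      (Matrix.of fun i j => MvPowerSeries.coeff (tau i)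
      (∏ s, nc (fun y u => I.J y A u) a (π.rho (l.get s) • y i) (J j s))) := by
    ext i j
    rw [Matrix.of_apply, Matrix.of_apply]
    congr 1
    refine Finset.prod_congr rfl fun s _ => ?_
    rw [hgy i, π.rho_add, mul_smul]
  rw [h1]
  exact hdet

end Pool.Agent.H8.HN
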